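import Mathlib
import Pool.Agent.U736.CE.Main
import Pool.Agent.Results.MP_ce738d_pr.GreedyVersusLeafDepth

/-!
# Height versus greedy path in the critical beta-splitting tree (Q2)

`E[L*_n] - E[L⁺_n]` is of the exact order `log² n`.

Lower bound: after a split into two parts of comparable size it pays to explore both parts for a
while. This is made precise by the potential
`Ψ(i, j) = a M² - C M + b (M - x₀)⁺ (1/4 - |H i - H j|)⁺`, `M = max (H i) (H j)`, of a pair of
clades (`H` the harmonic numbers), which is a lower bound for the mean of the maximum of two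
independent heights with `a = (1 + 10⁻⁷) 6 / π²`.
Upper bound: the exponential moment `E[ρ^{L*}] ≤ n²`, `ρ = 1 + 1 / (2 H)`.
-/

set_option autoImplicit false

namespace Pool.Agent.Results.MP_ce738d_pr.HeightVersusGreedy

open Filter Topology Pool.Agent.R982.CBS Pool.Agent.U736.CE BinaryTree
open Pool.Agent.Results.MP_ce738d_pr.GreedyVersusLeafDepth

/-- The height `L*` of a tree: the maximum of the depths of its leaves. -/
def height (t : BinaryTree Unit) : ℕ := (leafDepths t).foldr max 0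

/-- The expected height `E[L*_n]`. -/
noncomputable def meanHeight (n : ℕ) : ℝ := expect n (fun t => (height t : ℝ))

lemma meanHeight_succ (N : ℕ) : meanHeight (N + 1) = f N := rfl

/-- For all large `n`,
`10⁻⁸ log² n ≤ E[L*_n] - E[L⁺_n] ≤ 4 log² n`. -/
theorem result : ∀ᶠ n : ℕ in atTop,
    1 / 10 ^ 8 * Real.log n ^ 2 ≤ meanHeight n - meanGreedy n ∧
      meanHeight n - meanGreedy n ≤ 4 * Real.log n ^ 2 := by
  have hg : Tendsto (fun N : ℕ => meanGreedy (N + 1) / Real.log ((N + 1 : ℕ) : ℝ) ^ 2) atTop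
      (𝓝 (6 / Real.pi ^ 2)) := (tendsto_add_atTop_iff_nat 1).2 greedy_asymp
  have hlog : Tendsto (fun N : ℕ => Real.log ((N + 1 : ℕ) : ℝ)) atTop atTop :=
    Real.tendsto_log_atTop.comp (tendsto_natCast_atTop_atTop.comp (tendsto_add_atTop_nat 1))
  have hpi : 0 < 6 / Real.pi ^ 2 := by have := Real.pi_pos; positivity
  have hpi2 : 1 / 2 < 6 / Real.pi ^ 2 := by
    have h1 := Real.pi_lt_d2
    have h2 := Real.pi_pos
    rw [div_lt_div_iff₀ (by norm_num) (by positivity)]
    nlinarith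
  obtain ⟨C, hC⟩ := f_ge
  -- lower bound
  have hlow : Tendsto (fun N : ℕ => (1 + 1 / 10000000) * (6 / Real.pi ^ 2) *
      (H N / Real.log ((N + 1 : ℕ) : ℝ)) ^ 2 -
      C * ((H N / Real.log ((N + 1 : ℕ) : ℝ)) * (Real.log ((N + 1 : ℕ) : ℝ))⁻¹) -
      meanGreedy (N + 1) / Real.log ((N + 1 : ℕ) : ℝ) ^ 2) atTop
      (𝓝 ((1 + 1 / 10000000) * (6 / Real.pi ^ 2) * 1 ^ 2 - C * (1 * 0) - 6 / Real.pi ^ 2)) :=
    (((H_div_log.pow 2).const_mul _).sub
      ((H_div_log.mul hlog.inv_tendsto_atTop).const_mul C)).sub hg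
  have hlow' := hlow.eventually (eventually_gt_nhds
    (show (1 : ℝ) / 10 ^ 8 < _ by
      have e : (1 + 1 / 10000000) * (6 / Real.pi ^ 2) * 1 ^ 2 - C * (1 * 0) - 6 / Real.pi ^ 2 =
        1 / 10000000 * (6 / Real.pi ^ 2) := by ring
      rw [e]
      linarith))
  -- upper bound
  have hup : Tendsto (fun N : ℕ => 4 * (H N / Real.log ((N + 1 : ℕ) : ℝ)) +
      2 * (Real.log ((N + 1 : ℕ) : ℝ))⁻¹ -
      meanGreedy (N + 1) / Real.log ((N + 1 : ℕ) : ℝ) ^ 2) atTop
      (𝓝 (4 * 1 + 2 * 0 - 6 / Real.pi ^ 2)) :=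
    ((H_div_log.const_mul 4).add (hlog.inv_tendsto_atTop.const_mul 2)).sub hg
  have hup' := hup.eventually (eventually_lt_nhds
    (show 4 * 1 + 2 * 0 - 6 / Real.pi ^ 2 < 4 by linarith))
  have key : ∀ᶠ N : ℕ in atTop,
      1 / 10 ^ 8 * Real.log ((N + 1 : ℕ) : ℝ) ^ 2 ≤ meanHeight (N + 1) - meanGreedy (N + 1) ∧
      meanHeight (N + 1) - meanGreedy (N + 1) ≤ 4 * Real.log ((N + 1 : ℕ) : ℝ) ^ 2 := by
    filter_upwards [hlow', hup', hlog.eventually_gt_atTop 0, eventually_ge_atTop 1]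
      with N h1 h2 hL hN
    set L : ℝ := Real.log ((N + 1 : ℕ) : ℝ) with hLdef
    have hL2 : 0 < L ^ 2 := by positivity
    rw [meanHeight_succ]
    constructor
    · have h3 : (1 + 1 / 10000000) * (6 / Real.pi ^ 2) * (H N / L) ^ 2 -
          C * ((H N / L) * L⁻¹) - meanGreedy (N + 1) / L ^ 2 =
          ((1 + 1 / 10000000) * (6 / Real.pi ^ 2) * H N ^ 2 - C * H N - meanGreedy (N + 1)) /
            L ^ 2 := by
        field_simp
      rw [h3, lt_div_iff₀ hL2] at h1
      have h4 := hC N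
      linarith
    · have h3 : 4 * (H N / L) + 2 * L⁻¹ - meanGreedy (N + 1) / L ^ 2 =
          ((2 * H N + 1) * (2 * L) - meanGreedy (N + 1)) / L ^ 2 := by
        field_simp
        ring
      rw [h3, div_lt_iff₀ hL2] at h2
      have h4 := f_le N hN
      have h5 : Real.log (1 + (N : ℝ) ^ 2) ≤ 2 * L := by
        rw [hLdef, ← Real.log_rpow (by positivity)]
        apply Real.log_le_log (by positivity)
        rw [Real.rpow_two]
        push_cast
        have : (0 : ℝ) ≤ N := Nat.cast_nonneg _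
        nlinarith
      have h6 : (2 * H N + 1) * Real.log (1 + (N : ℝ) ^ 2) ≤ (2 * H N + 1) * (2 * L) :=
        mul_le_mul_of_nonneg_left h5 (by have := H_nonneg N; positivity)
      linarith
  obtain ⟨N0, hN0⟩ := eventually_atTop.mp key
  refine eventually_atTop.mpr ⟨N0 + 1, fun n hn => ?_⟩
  obtain ⟨N, rfl⟩ : ∃ N, n = N + 1 := ⟨n - 1, by omega⟩
  exact hN0 N (by omega)

end Pool.Agent.Results.MP_ce738d_pr.HeightVersusGreedy
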